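import Pool.Agent.H74.SX.Defs

set_option autoImplicit false

/-! # [H25 CX Bo] MP_bddfa3_an: topology of the interior domain of a chart (for helper30, helper1) -/

namespace Pool.Agent.H25.CX

open MeasureTheory Set Filter Topology Metric Pool.Agent.H74.SX

variable {ψ : ℂ → ℂ}

theorem isOpen_out (r : ℝ) : IsOpen {w : ℂ | r < ‖w‖} := isOpen_lt continuous_const continuous_norm

theorem analytic (h : Chart ψ) {w : ℂ} (hw : 1 ≤ ‖w‖) : AnalyticAt ℂ ψ w := by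
  obtain ⟨r, hr, hd⟩ := h.hol
  exact hd.analyticAt ((isOpen_out r).mem_nhds (lt_of_lt_of_le hr hw))

theorem cont (h : Chart ψ) {w : ℂ} (hw : 1 ≤ ‖w‖) : ContinuousAt ψ w := (analytic h hw).continuousAt

theorem tend (h : Chart ψ) : Tendsto (fun w => ‖ψ w‖) (cocompact ℂ) atTop := by
  obtain ⟨c, hc, ht⟩ := h.inf
  have h1 : Tendsto (fun w => ‖ψ w / w‖) (cocompact ℂ) (𝓝 ‖c‖) := ht.norm
  have h2 : Tendsto (fun w : ℂ => ‖w‖) (cocompact ℂ) atTop := tendsto_norm_cocompact_atTop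
  have h3 := h2.atTop_mul_pos (norm_pos_iff.2 hc) h1
  refine h3.congr' ?_
  filter_upwards [h2.eventually_gt_atTop 0] with w hw
  rw [norm_div]
  field_simp

/-- a bound: `‖ψ w‖ ≤ C` implies `‖w‖ ≤ M` -/
theorem proper (h : Chart ψ) (C : ℝ) : ∃ M : ℝ, ∀ w, ‖ψ w‖ ≤ C → ‖w‖ ≤ M := by
  have h1 := (tend h).eventually_gt_atTop C
  rw [← cobounded_eq_cocompact, (hasBasis_cobounded_norm).eventually_iff] at h1
  obtain ⟨M, -, hM⟩ := h1
  refine ⟨M, fun w hw => ?_⟩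
  by_contra hc
  push Not at hc
  have := hM (show w ∈ {x : ℂ | M ≤ ‖x‖} from hc.le)
  linarith

/-- sequences in `|w| ≥ 1` with convergent images -/
theorem seq (h : Chart ψ) (u : ℕ → ℂ) (hu : ∀ n, 1 ≤ ‖u n‖) (z : ℂ) (hz : Tendsto (fun n => ψ (u n)) atTop (𝓝 z)) :
    ∃ w : ℂ, 1 ≤ ‖w‖ ∧ ψ w = z ∧ ∃ φ : ℕ → ℕ, StrictMono φ ∧ Tendsto (fun n => u (φ n)) atTop (𝓝 w) := by
  obtain ⟨C, hC⟩ := (hz.norm.bddAbove_range)
  obtain ⟨M, hM⟩ := proper h C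
  have hb : ∀ n, u n ∈ closedBall (0 : ℂ) M := fun n => by
    rw [mem_closedBall_zero_iff]
    exact hM _ (hC ⟨n, rfl⟩)
  obtain ⟨w, -, φ, hφ, hw⟩ := (isCompact_closedBall (0 : ℂ) M).tendsto_subseq hb
  have h1 : 1 ≤ ‖w‖ := ge_of_tendsto' hw.norm (fun n => hu _)
  refine ⟨w, h1, ?_, φ, hφ, hw⟩
  exact tendsto_nhds_unique ((cont h h1).tendsto.comp hw) (hz.comp hφ.tendsto_atTop)

theorem bb2 (h : Chart ψ) : IsOpen (Inn ψ) := by
  have hc : IsClosed (ψ '' {w | 1 ≤ ‖w‖}) := by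
    refine isClosed_of_closure_subset fun z hz => ?_
    obtain ⟨y, hy, hyz⟩ := mem_closure_iff_seq_limit.1 hz
    choose u hu hu' using hy
    obtain ⟨w, hw, hw', -⟩ := seq h u hu z (by simpa only [hu'] using hyz)
    exact ⟨w, hw, hw'⟩
  exact hc.isOpen_compl

theorem nonconst (h : Chart ψ) {w : ℂ} (hw : 1 ≤ ‖w‖) : ¬ ∀ᶠ v in 𝓝 w, ψ v = ψ w := by
  intro hc
  obtain ⟨ε, hε, hb⟩ := Metric.eventually_nhds_iff.1 hc
  have hw0 : w ≠ 0 := by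
    rintro rfl
    simp at hw
    linarith
  have hwp : 0 < ‖w‖ := norm_pos_iff.2 hw0
  set t : ℝ := ε / (2 * ‖w‖) with ht
  have htp : 0 < t := by positivity
  set v : ℂ := w + (t : ℂ) * w with hv
  have hv1 : dist v w < ε := by
    rw [dist_eq_norm, hv, add_sub_cancel_left, norm_mul, Complex.norm_real, Real.norm_eq_abs, abs_of_pos htp, ht]
    field_simp
    linarith
  have hv2 : ‖v‖ = (1 + t) * ‖w‖ := by
    have : v = ((1 + t : ℝ) : ℂ) * w := by rw [hv]; push_cast; ring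
    rw [this, norm_mul, Complex.norm_real, Real.norm_eq_abs, abs_of_pos (by linarith)]
  have hv3 : 1 ≤ ‖v‖ := by
    rw [hv2]
    nlinarith
  have := h.inj (show v ∈ {w : ℂ | 1 ≤ ‖w‖} from hv3) hw (hb hv1)
  rw [this] at hv2
  nlinarith

theorem ext_nhds (h : Chart ψ) {w : ℂ} (hw : 1 < ‖w‖) : ψ '' {w | 1 < ‖w‖} ∈ 𝓝 (ψ w) := by
  rcases (analytic h hw.le).eventually_constant_or_nhds_le_map_nhds with hc | hc
  · exact (nonconst h hw.le hc).elim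
  · exact hc (image_mem_map ((isOpen_out 1).mem_nhds hw))

theorem bb5 (h : Chart ψ) : ∀ z ∈ closure (Inn ψ), z ∉ Inn ψ → ∃ w, ‖w‖ = 1 ∧ ψ w = z := by
  intro z hz hz'
  have hz1 : z ∈ ψ '' {w | 1 ≤ ‖w‖} := not_not.1 hz'
  obtain ⟨w, hw, rfl⟩ := hz1
  rcases eq_or_lt_of_le (show 1 ≤ ‖w‖ from hw) with hw1 | hw1
  · exact ⟨w, hw1.symm, rfl⟩
  · exfalso
    obtain ⟨y, hy1, hy2⟩ := mem_closure_iff_nhds.1 hz _ (ext_nhds h hw1)
    obtain ⟨v, hv, rfl⟩ := hy1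
    have hv' : (1 : ℝ) < ‖v‖ := hv
    exact hy2 ⟨v, hv'.le, rfl⟩

theorem bb3 (h : Chart ψ) : ∀ w, ‖w‖ = 1 → ∀ᶠ v in 𝓝 w, ‖v‖ < 1 → ψ v ∈ Inn ψ := by
  intro w hw
  by_contra hc
  rw [not_eventually] at hc
  have hS : HasStrictDerivAt ψ (deriv ψ w) w := (analytic h hw.ge).hasStrictDerivAt
  obtain ⟨v, hv, hvp⟩ := exists_seq_forall_of_frequently hc
  have hv1 : ∀ n, ‖v n‖ < 1 := fun n => by
    by_contra hh
    exact hvp n (fun h' => (hh h').elim)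
  have hv2 : ∀ n, ∃ u : ℂ, 1 ≤ ‖u‖ ∧ ψ u = ψ (v n) := fun n => by
    by_contra hh
    exact hvp n (fun _ h' => hh (by obtain ⟨u, hu, hu'⟩ := h'; exact ⟨u, hu, hu'⟩))
  choose u hu hu' using hv2
  have ht : Tendsto (fun n => ψ (u n)) atTop (𝓝 (ψ w)) := by
    simp only [hu']
    exact (cont h hw.ge).tendsto.comp hv
  obtain ⟨w', hw', he, φ, hφ, hl⟩ := seq h u hu _ ht
  have hww : w' = w := h.inj hw' (show w ∈ {w : ℂ | 1 ≤ ‖w‖} from hw.ge) he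
  subst hww
  have hE := hS.hasStrictFDerivAt_equiv (h.nz w' hw)
  set e := hE.toOpenPartialHomeomorph ψ with hee
  have hsrc : e.source ∈ 𝓝 w' := e.open_source.mem_nhds hE.mem_toOpenPartialHomeomorph_source
  have hinj : InjOn ψ e.source := e.injOn
  obtain ⟨n, hn1, hn2⟩ := ((hl.eventually hsrc).and ((hv.comp hφ.tendsto_atTop).eventually hsrc)).exists
  have := hinj hn1 hn2 (hu' _)
  have h1 := hu (φ n)
  have h2 := hv1 (φ n)
  simp only [Function.comp] at this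
  rw [this] at h1
  linarith

theorem bb4 (h : Chart ψ) : ∀ w, ‖w‖ = 1 → ψ w ∈ closure (Inn ψ) := by
  intro w hw
  have h1 := bb3 h w hw
  set v : ℕ → ℂ := fun n => ((1 - 1 / ((n : ℝ) + 1) : ℝ) : ℂ) * w with hv
  have hlim : Tendsto v atTop (𝓝 w) := by
    have h2 : Tendsto (fun n : ℕ => (1 - 1 / ((n : ℝ) + 1) : ℝ)) atTop (𝓝 (1 - 0)) :=
      tendsto_const_nhds.sub tendsto_one_div_add_atTop_nhds_zero_nat
    have h3 := (Complex.continuous_ofReal.tendsto _).comp h2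
    have h4 := h3.mul_const w
    have h5 : (((1 - 0 : ℝ) : ℂ)) * w = w := by simp
    rw [h5] at h4
    exact h4
  refine mem_closure_of_tendsto ((cont h hw.ge).tendsto.comp hlim) ?_
  filter_upwards [hlim.eventually h1] with n hn
  refine hn ?_
  have hp : (0 : ℝ) < 1 / ((n : ℝ) + 1) := by positivity
  have hp1 : 1 / ((n : ℝ) + 1) ≤ 1 := by
    rw [div_le_one (by positivity)]
    have : (0 : ℝ) ≤ n := Nat.cast_nonneg n
    linarith
  simp only [hv]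
  rw [norm_mul, Complex.norm_real, hw, mul_one, Real.norm_eq_abs, abs_of_nonneg (by linarith)]
  linarith

theorem bb1 (h : Chart ψ) : Bornology.IsBounded (Inn ψ) := by
  set g : ℂ → ℂ := Function.update (fun ζ => (ψ ζ⁻¹)⁻¹) 0 0 with hg
  have hg0 : g 0 = 0 := by simp [hg]
  have hg1 : ∀ ζ : ℂ, ζ ≠ 0 → g ζ = (ψ ζ⁻¹)⁻¹ := fun ζ hζ => by simp [hg, Function.update_of_ne hζ]
  have hinv : Tendsto (fun ζ : ℂ => ζ⁻¹) (𝓝[≠] 0) (cocompact ℂ) := by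
    rw [← cobounded_eq_cocompact]
    exact Filter.tendsto_inv₀_nhdsNE_zero
  have hlim : Tendsto (fun ζ : ℂ => ‖ψ ζ⁻¹‖) (𝓝[≠] 0) atTop := (tend h).comp hinv
  have hcont : ContinuousAt g 0 := by
    rw [continuousAt_iff_punctured_nhds, hg0, tendsto_zero_iff_norm_tendsto_zero]
    refine (tendsto_inv_atTop_zero.comp hlim).congr' ?_
    filter_upwards [self_mem_nhdsWithin] with ζ hζ
    simp only [Function.comp]
    rw [hg1 ζ hζ, norm_inv]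
  have hne : ∀ᶠ ζ : ℂ in 𝓝[≠] 0, g ζ ≠ 0 := by
    filter_upwards [hlim.eventually_gt_atTop 0, self_mem_nhdsWithin] with ζ h1 h2
    rw [hg1 ζ h2]
    exact inv_ne_zero (norm_pos_iff.1 h1)
  have hd : ∀ᶠ ζ : ℂ in 𝓝[≠] 0, DifferentiableAt ℂ g ζ := by
    have hb : ball (0 : ℂ) 1 ∈ 𝓝[≠] (0 : ℂ) := mem_nhdsWithin_of_mem_nhds (ball_mem_nhds _ one_pos)
    filter_upwards [hlim.eventually_gt_atTop 0, self_mem_nhdsWithin, hb] with ζ h1 h2 h3
    have hζ : ζ ≠ 0 := h2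
    have hge : g =ᶠ[𝓝 ζ] fun ζ => (ψ ζ⁻¹)⁻¹ := by
      filter_upwards [isOpen_ne.mem_nhds hζ] with x hx
      exact hg1 x hx
    refine DifferentiableAt.congr_of_eventuallyEq ?_ hge
    have hn : 1 ≤ ‖ζ⁻¹‖ := by
      rw [norm_inv]
      rw [mem_ball_zero_iff] at h3
      exact (one_le_inv₀ (norm_pos_iff.2 hζ)).2 h3.le
    have h4 : DifferentiableAt ℂ ψ ζ⁻¹ := (analytic h hn).differentiableAt
    exact (h4.comp ζ (differentiableAt_inv hζ)).inv (norm_pos_iff.1 h1)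
  have han : AnalyticAt ℂ g 0 := Complex.analyticAt_of_differentiable_on_punctured_nhds_of_continuousAt hd hcont
  rcases han.eventually_constant_or_nhds_le_map_nhds with hc | hc
  · exfalso
    rw [hg0] at hc
    have := (hc.filter_mono nhdsWithin_le_nhds).and hne
    obtain ⟨ζ, h1, h2⟩ := this.exists
    exact h2 h1
  · rw [hg0] at hc
    have hm : g '' ball 0 1 ∈ 𝓝 (0 : ℂ) := hc (image_mem_map (ball_mem_nhds _ one_pos))
    obtain ⟨ε, hε, hsub⟩ := Metric.mem_nhds_iff.1 hm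
    refine (isBounded_closedBall (x := (0 : ℂ)) (r := ε⁻¹)).subset fun z hz => ?_
    rw [mem_closedBall_zero_iff]
    by_contra hcon
    push Not at hcon
    have hz0 : 0 < ‖z‖ := lt_trans (inv_pos.2 hε) hcon
    have hz0' : z ≠ 0 := norm_pos_iff.1 hz0
    have h1 : z⁻¹ ∈ ball (0 : ℂ) ε := by
      rw [mem_ball_zero_iff, norm_inv]
      exact inv_lt_of_inv_lt₀ hε hcon
    obtain ⟨ζ, hζ, he⟩ := hsub h1
    have hζ0 : ζ ≠ 0 := by
      rintro rfl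
      rw [hg0] at he
      exact inv_ne_zero hz0' he.symm
    rw [hg1 ζ hζ0, inv_inj] at he
    refine hz ⟨ζ⁻¹, ?_, he⟩
    show 1 ≤ ‖ζ⁻¹‖
    rw [norm_inv]
    rw [mem_ball_zero_iff] at hζ
    exact (one_le_inv₀ (norm_pos_iff.2 hζ0)).2 hζ.le

theorem all (ψ : ℂ → ℂ) (h : Chart ψ) : Bornology.IsBounded (Inn ψ) ∧ IsOpen (Inn ψ) ∧
    (∀ w, ‖w‖ = 1 → ∀ᶠ v in 𝓝 w, ‖v‖ < 1 → ψ v ∈ Inn ψ) ∧ (∀ w, ‖w‖ = 1 → ψ w ∈ closure (Inn ψ)) ∧
    ∀ z ∈ closure (Inn ψ), z ∉ Inn ψ → ∃ w, ‖w‖ = 1 ∧ ψ w = z :=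
  ⟨bb1 h, bb2 h, bb3 h, bb4 h, bb5 h⟩

end Pool.Agent.H25.CX
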