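import Mathlib

set_option autoImplicit false

/-! # [H25 CX Ric] a Riccati type inequality (for MP_bddfa3_an, CV/Trc) -/

namespace Pool.Agent.H25.CX

open MeasureTheory Set Filter Topology

/-- an integrable nonnegative function is small compared with `1 / (l0 + t)` at some large point -/
theorem small_at (l0 : ℝ) (hl0 : 0 < l0) (E : ℝ → ℝ) (hE : IntegrableOn E (Ioi 0)) (ε : ℝ) (hε : 0 < ε) :
    ∃ T : ℝ, 0 < T ∧ (l0 + T) * E T < ε := by
  by_contra hc
  push Not at hc
  have h1 : ∀ t : ℝ, 0 < t → ε / (l0 + t) ≤ E t := fun t ht => by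
    rw [div_le_iff₀ (by linarith)]
    have := hc t ht
    linarith
  have h2 : ∀ T : ℝ, 0 < T → ε * (Real.log (l0 + T) - Real.log l0) ≤ ∫ t in Ioi (0 : ℝ), |E t| := fun T hT => by
    have h3 : ∫ t in (0 : ℝ)..T, ε / (l0 + t) = ε * (Real.log (l0 + T) - Real.log l0) := by
      have hd : ∀ t ∈ uIcc (0 : ℝ) T, HasDerivAt (fun t => ε * Real.log (l0 + t)) (ε / (l0 + t)) t := fun t ht => by
        rw [uIcc_of_le hT.le] at ht
        have hp : l0 + t ≠ 0 := by have := ht.1; positivity
        have := (((hasDerivAt_id t).const_add l0).log hp).const_mul ε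
        refine this.congr_deriv ?_
        simp only [id]
        ring
      have hi : IntervalIntegrable (fun t => ε / (l0 + t)) volume 0 T := by
        refine ContinuousOn.intervalIntegrable ?_
        intro t ht
        rw [uIcc_of_le hT.le] at ht
        have hp : l0 + t ≠ 0 := by have := ht.1; positivity
        exact (ContinuousAt.div continuousAt_const (by fun_prop) hp).continuousWithinAt
      rw [intervalIntegral.integral_eq_sub_of_hasDerivAt hd hi]
      simp only [add_zero]
      ring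
    rw [← h3, intervalIntegral.integral_of_le hT.le]
    have hiE : IntegrableOn (fun t => |E t|) (Ioi 0) := hE.abs
    refine le_trans (setIntegral_mono_on ?_ (hiE.mono_set Ioc_subset_Ioi_self) measurableSet_Ioc fun t ht => ?_)
      (setIntegral_mono_set hiE (Eventually.of_forall fun t => abs_nonneg _) (Ioc_subset_Ioi_self.eventuallyLE))
    · have hi : IntervalIntegrable (fun t => ε / (l0 + t)) volume 0 T := by
        refine ContinuousOn.intervalIntegrable ?_
        intro t ht
        rw [uIcc_of_le hT.le] at ht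
        have hp : l0 + t ≠ 0 := by have := ht.1; positivity
        exact (ContinuousAt.div continuousAt_const (by fun_prop) hp).continuousWithinAt
      exact (intervalIntegrable_iff_integrableOn_Ioc_of_le hT.le).1 hi
    · exact (h1 t ht.1).trans (le_abs_self _)
  have h3 : Tendsto (fun T : ℝ => ε * (Real.log (l0 + T) - Real.log l0)) atTop atTop := by
    refine Tendsto.const_mul_atTop hε ?_
    refine tendsto_atTop_add_const_right _ _ ?_
    exact Real.tendsto_log_atTop.comp (tendsto_atTop_add_const_left _ _ tendsto_id)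
  obtain ⟨T, hT1, hT2⟩ := ((h3.eventually_gt_atTop (∫ t in Ioi (0 : ℝ), |E t|)).and (eventually_gt_atTop 0)).exists
  exact absurd (h2 T hT2) (not_le.2 hT1)

theorem ric (l0 : ℝ) (hl0 : 0 < l0) (h h' E A B : ℝ → ℝ) (hcont : ContinuousOn h (Ici 0)) (hnn : ∀ t, 0 < t → 0 ≤ h t)
    (hder : ∀ t, 0 < t → HasDerivAt h (h' t) t)
    (hE : IntegrableOn E (Ioi 0)) (hAB : ∀ t, 0 < t → E t = A t + B t) (hA : ∀ t, 0 < t → 0 ≤ A t)
    (hW : ∀ t, 0 < t → h t ≤ (l0 + t) ^ 2 * B t)
    (hlam : ∀ t, 0 < t → ∀ lam : ℝ, 0 < lam → - h' t ≤ lam * h t + A t / lam) :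
    h 0 ≤ l0 * (Real.sqrt 5 + 1) / 2 * ∫ t in Ioi (0 : ℝ), E t := by
  set a : ℝ := (Real.sqrt 5 - 1) / 2 with ha
  have h5 : Real.sqrt 5 ^ 2 = 5 := Real.sq_sqrt (by norm_num)
  have h5p : 2 < Real.sqrt 5 := by
    rw [Real.lt_sqrt (by norm_num)]
    norm_num
  have hap : 0 < a := by rw [ha]; linarith
  have haa : a * (1 + a) = 1 := by rw [ha]; nlinarith
  set K : ℝ := l0 * (1 + a) with hK
  have hK' : l0 * (Real.sqrt 5 + 1) / 2 = K := by rw [hK, ha]; ring
  rw [hK']
  have hKp : 0 < K := by rw [hK]; positivity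
  have hB : ∀ t, 0 < t → 0 ≤ B t := fun t ht => by
    have h1 := (hnn t ht).trans (hW t ht)
    have h2 : 0 < (l0 + t) ^ 2 := by positivity
    exact nonneg_of_mul_nonneg_right h1 h2
  have hEp : ∀ t, 0 < t → 0 ≤ E t := fun t ht => by
    rw [hAB t ht]
    exact add_nonneg (hA t ht) (hB t ht)
  set g : ℝ → ℝ := fun t => -(l0 / (l0 + t) * h t) with hg
  have hgd : ∀ t, 0 < t → HasDerivAt g (-((-l0 / (l0 + t) ^ 2) * h t + l0 / (l0 + t) * h' t)) t := fun t ht => by
    have hp : l0 + t ≠ 0 := by positivity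
    have h1 : HasDerivAt (fun t => l0 / (l0 + t)) (-l0 / (l0 + t) ^ 2) t := by
      have := (hasDerivAt_const t l0).div ((hasDerivAt_id t).const_add l0) hp
      refine this.congr_deriv ?_
      simp
    exact (h1.mul (hder t ht)).neg
  have hgc : ContinuousOn g (Ici 0) := by
    refine (ContinuousOn.mul ?_ hcont).neg
    intro t ht
    have hp : l0 + t ≠ 0 := by have : (0 : ℝ) ≤ t := ht; positivity
    exact (ContinuousAt.div continuousAt_const (by fun_prop) hp).continuousWithinAt
  have hbd : ∀ t, 0 < t → -((-l0 / (l0 + t) ^ 2) * h t + l0 / (l0 + t) * h' t) ≤ K * E t := fun t ht => by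
    have hp : 0 < l0 + t := by positivity
    have h1 := hlam t ht (a / (l0 + t)) (by positivity)
    have h2 : l0 / (l0 + t) * (-h' t) ≤ l0 / (l0 + t) * (a / (l0 + t) * h t + A t / (a / (l0 + t))) :=
      mul_le_mul_of_nonneg_left h1 (by positivity)
    have h3 : l0 / (l0 + t) * (a / (l0 + t) * h t + A t / (a / (l0 + t))) = l0 * a / (l0 + t) ^ 2 * h t + l0 / a * A t := by
      field_simp
    have h4 : l0 / a = K := by
      rw [hK, div_eq_iff hap.ne']
      linear_combination (-l0) * haa
    rw [h3, h4] at h2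
    have h5 : l0 * (1 + a) / (l0 + t) ^ 2 * h t ≤ K * B t := by
      have h6 : l0 * (1 + a) / (l0 + t) ^ 2 * h t ≤ l0 * (1 + a) / (l0 + t) ^ 2 * ((l0 + t) ^ 2 * B t) :=
        mul_le_mul_of_nonneg_left (hW t ht) (by positivity)
      refine h6.trans (le_of_eq ?_)
      rw [hK]
      field_simp
    rw [hAB t ht]
    have e : -((-l0 / (l0 + t) ^ 2) * h t + l0 / (l0 + t) * h' t) =
        l0 / (l0 + t) ^ 2 * h t + l0 / (l0 + t) * (-h' t) := by ring
    rw [e]
    have e2 : l0 / (l0 + t) ^ 2 * h t + (l0 * a / (l0 + t) ^ 2 * h t + K * A t) =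
        l0 * (1 + a) / (l0 + t) ^ 2 * h t + K * A t := by ring
    nlinarith
  refine le_of_forall_pos_le_add fun ε hε => ?_
  obtain ⟨T, hT, hTs⟩ := small_at l0 hl0 E hE (ε / l0) (by positivity)
  have hfund := intervalIntegral.sub_le_integral_of_hasDeriv_right_of_le (g := g)
    (g' := fun t => -((-l0 / (l0 + t) ^ 2) * h t + l0 / (l0 + t) * h' t)) (φ := fun t => K * E t) hT.le
    (hgc.mono Icc_subset_Ici_self) (fun t ht => (hgd t ht.1).hasDerivWithinAt)
    (by
      rw [integrableOn_Icc_iff_integrableOn_Ioc]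
      exact (hE.mono_set Ioc_subset_Ioi_self).const_mul K) (fun t ht => hbd t ht.1)
  rw [intervalIntegral.integral_of_le hT.le, integral_const_mul] at hfund
  have h0 : g 0 = - h 0 := by
    simp only [hg, add_zero]
    rw [div_self hl0.ne', one_mul]
  have hm : ∫ t in Ioc (0 : ℝ) T, E t ≤ ∫ t in Ioi (0 : ℝ), E t :=
    setIntegral_mono_set hE (by
      filter_upwards [ae_restrict_mem measurableSet_Ioi] with t ht
      exact hEp t ht) (Ioc_subset_Ioi_self.eventuallyLE)
  have hgT : -(g T) ≤ ε := by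
    simp only [hg, neg_neg]
    have hp : 0 < l0 + T := by positivity
    have h1 : h T ≤ (l0 + T) ^ 2 * E T := by
      refine (hW T hT).trans ?_
      rw [hAB T hT]
      have := hA T hT
      have h2 : 0 < (l0 + T) ^ 2 := by positivity
      nlinarith
    have h2 : l0 / (l0 + T) * h T ≤ l0 / (l0 + T) * ((l0 + T) ^ 2 * E T) := mul_le_mul_of_nonneg_left h1 (by positivity)
    have h3 : l0 / (l0 + T) * ((l0 + T) ^ 2 * E T) = l0 * ((l0 + T) * E T) := by field_simp
    have h4 : l0 * ((l0 + T) * E T) ≤ l0 * (ε / l0) := mul_le_mul_of_nonneg_left hTs.le hl0.le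
    have h5 : l0 * (ε / l0) = ε := by field_simp
    linarith
  rw [h0] at hfund
  have := mul_le_mul_of_nonneg_left hm hKp.le
  linarith

end Pool.Agent.H25.CX
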